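import Pool.Agent.H23.KD.C19.Chain
import Pool.Agent.H8.KA.L19.E0
import Pool.Agent.H8.KA.L19.I0
import Pool.Agent.H8.KA.L19.E1
import Pool.Agent.H8.KA.L19.I1
import Pool.Agent.H8.KA.L19.E2
import Pool.Agent.H8.KA.L19.I2
import Pool.Agent.H8.KA.L19.E3
import Pool.Agent.H8.KA.L19.I3

set_option autoImplicit false
set_option maxRecDepth 100000
set_option linter.all false

namespace Pool.Agent.H8.KA.L19

open Pool.Agent.H23.KD Pool.Agent.H8.KA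

/-- there is no function with the facts -/
theorem cert (f : ℕ → ℤ) (hf : FKP 0 19 f) : False := by
  refine Pool.Agent.H23.KD.C19.no_val (w := wF VT f) (val_of (VT := VT) ?_ ?_)
  · exact ⟨⟨⟨⟨(equAll hf HE0), (equAll hf HE8)⟩, ⟨(equAll hf HE4), (equAll hf HE12)⟩⟩, ⟨⟨(equAll hf HE2), (equAll hf HE10)⟩, ⟨(equAll hf HE6), (equAll hf HE14)⟩⟩⟩, ⟨⟨⟨(equAll hf HE1), (equAll hf HE9)⟩, ⟨(equAll hf HE5), (equAll hf HE13)⟩⟩, ⟨⟨(equAll hf HE3), (equAll hf HE11)⟩, ⟨(equAll hf HE7), (equAll hf HE15)⟩⟩⟩⟩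
  · exact ⟨⟨⟨⟨(impAll hf.toFK (XT := XT) HI0), (impAll hf.toFK (XT := XT) HI8)⟩, ⟨(impAll hf.toFK (XT := XT) HI4), (impAll hf.toFK (XT := XT) HI12)⟩⟩, ⟨⟨(impAll hf.toFK (XT := XT) HI2), (impAll hf.toFK (XT := XT) HI10)⟩, ⟨(impAll hf.toFK (XT := XT) HI6), (impAll hf.toFK (XT := XT) HI14)⟩⟩⟩, ⟨⟨⟨(impAll hf.toFK (XT := XT) HI1), (impAll hf.toFK (XT := XT) HI9)⟩, ⟨(impAll hf.toFK (XT := XT) HI5), (impAll hf.toFK (XT := XT) HI13)⟩⟩, ⟨⟨(impAll hf.toFK (XT := XT) HI3), (impAll hf.toFK (XT := XT) HI11)⟩, ⟨(impAll hf.toFK (XT := XT) HI7), (impAll hf.toFK (XT := XT) HI15)⟩⟩⟩⟩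

end Pool.Agent.H8.KA.L19
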